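import Pool.Agent.Q77.LU.StmU
import Pool.Agent.Q150.LU.DEC

/-!
# Bounds of the frequencies, uniform in the size of the lattice
-/

set_option autoImplicit false
set_option linter.unusedSectionVars false

namespace Pool.Agent.Q111.LU

open Pool.Agent.Q77.LU
open Pool.Agent.Q150.LU (hess_mulVec lap_mulVec sum_link lap_energy)
open Matrix

variable {N n D l : ℕ} [NeZero l] {G : Subgroup (UU N)} {B : LieBasis G n}

theorem div_zero' (dc : Dec B D l) (i : Fin dc.M) (x : Fin D → ZMod l) (a : Fin n) :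
    ∑ k : Fin D, dc.b i ((x - unitv k, k), a) = ∑ k : Fin D, dc.b i ((x, k), a) := by
  have h := dc.div i x a
  rw [Finset.sum_sub_distrib] at h
  linarith

theorem om_sq (h1 : S_HESSF) (hG : IsClosed (G : Set (UU N))) (dc : Dec B D l) (i : Fin dc.M) :
    dc.om i ^ 2 = ∑ j : Fin D, ∑ k : Fin D, ∑ q : (Fin D → ZMod l) × Fin n,
      (dc.b i ((q.1 + unitv k, j), q.2) - dc.b i ((q.1, j), q.2)) ^ 2 := by
  have e1 : ∑ p, dc.b i p * (hess B (fun _ : Link D l => (1 : G))).mulVec (dc.b i) p =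
      dc.om i ^ 2 := by
    rw [dc.eig i]
    have h := dc.orth i i
    rw [if_pos rfl] at h
    calc ∑ p, dc.b i p * (dc.om i ^ 2 • dc.b i) p = dc.om i ^ 2 * ∑ p, dc.b i p * dc.b i p := by
          rw [Finset.mul_sum]
          refine Finset.sum_congr rfl fun p _ => ?_
          rw [Pi.smul_apply, smul_eq_mul]
          ring
      _ = dc.om i ^ 2 := by rw [h, mul_one]
  rw [← e1, sum_link]
  refine Finset.sum_congr rfl fun j _ => ?_
  rw [← lap_energy (fun q : (Fin D → ZMod l) × Fin n => dc.b i ((q.1, j), q.2))]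
  refine Finset.sum_congr rfl fun q _ => ?_
  congr 1
  rw [hess_mulVec h1 hG, lap_mulVec]
  have e2 : ∑ k : Fin D, ((dc.b i ((q.1 + unitv j - unitv k, k), q.2) -
      dc.b i ((q.1 + unitv j, k), q.2)) -
        (dc.b i ((q.1 - unitv k, k), q.2) - dc.b i ((q.1, k), q.2))) = 0 := by
    rw [Finset.sum_sub_distrib, Finset.sum_sub_distrib, Finset.sum_sub_distrib,
      div_zero' dc i (q.1 + unitv j) q.2, div_zero' dc i q.1 q.2]
    ring
  rw [e2, sub_zero]

theorem t_OMU (h1 : S_PCR) (h2 : S_HESSF) : S_OMU := by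
  intro N n D G hG B
  obtain ⟨p, C, hC, hP⟩ := h1 D
  refine ⟨p, C + 4 * D, by linarith [(Nat.cast_nonneg D : (0 : ℝ) ≤ D)], ?_⟩
  intro l _ dc i
  have hl : (1 : ℝ) ≤ (l : ℝ) ^ p :=
    one_le_pow₀ (by exact_mod_cast Nat.one_le_iff_ne_zero.2 (NeZero.ne l))
  have hD : (0 : ℝ) ≤ D := Nat.cast_nonneg D
  have hom := om_sq h2 hG dc i
  have hpos := dc.ompos i
  have hunit : ∑ j : Fin D, ∑ q : (Fin D → ZMod l) × Fin n, dc.b i ((q.1, j), q.2) ^ 2 = 1 := by
    have h := dc.orth i i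
    rw [if_pos rfl, sum_link] at h
    rw [← h]
    refine Finset.sum_congr rfl fun j _ => Finset.sum_congr rfl fun q _ => ?_
    ring
  have hlow : 1 ≤ C * (l : ℝ) ^ p * dc.om i ^ 2 := by
    rw [hom, ← hunit, Finset.mul_sum]
    refine Finset.sum_le_sum fun j _ => ?_
    rw [Fintype.sum_prod_type, Finset.sum_comm]
    have e1 : ∑ k : Fin D, ∑ q : (Fin D → ZMod l) × Fin n,
        (dc.b i ((q.1 + unitv k, j), q.2) - dc.b i ((q.1, j), q.2)) ^ 2 =
        ∑ a : Fin n, ∑ x : Fin D → ZMod l, ∑ k : Fin D,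
          (dc.b i ((x + unitv k, j), a) - dc.b i ((x, j), a)) ^ 2 := by
      have : ∀ k : Fin D, ∑ q : (Fin D → ZMod l) × Fin n,
          (dc.b i ((q.1 + unitv k, j), q.2) - dc.b i ((q.1, j), q.2)) ^ 2 =
          ∑ a : Fin n, ∑ x : Fin D → ZMod l,
          (dc.b i ((x + unitv k, j), a) - dc.b i ((x, j), a)) ^ 2 := by
        intro k
        rw [Fintype.sum_prod_type, Finset.sum_comm]
      rw [Finset.sum_congr rfl fun k _ => this k, Finset.sum_comm]
      refine Finset.sum_congr rfl fun a _ => ?_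
      rw [Finset.sum_comm]
    rw [e1, Finset.mul_sum]
    refine Finset.sum_le_sum fun a _ => ?_
    exact hP l (fun x => dc.b i ((x, j), a)) (dc.mean i j a)
  have hup : dc.om i ^ 2 ≤ 4 * D := by
    have e1 : ∀ (j k : Fin D), ∑ q : (Fin D → ZMod l) × Fin n,
        (dc.b i ((q.1 + unitv k, j), q.2) - dc.b i ((q.1, j), q.2)) ^ 2 ≤
        4 * ∑ q : (Fin D → ZMod l) × Fin n, dc.b i ((q.1, j), q.2) ^ 2 := by
      intro j k
      have e2 : ∑ q : (Fin D → ZMod l) × Fin n, dc.b i ((q.1 + unitv k, j), q.2) ^ 2 =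
          ∑ q : (Fin D → ZMod l) × Fin n, dc.b i ((q.1, j), q.2) ^ 2 :=
        Equiv.sum_comp (Pool.Agent.Q150.LU.sh k)
          (fun q : (Fin D → ZMod l) × Fin n => dc.b i ((q.1, j), q.2) ^ 2)
      calc ∑ q : (Fin D → ZMod l) × Fin n,
            (dc.b i ((q.1 + unitv k, j), q.2) - dc.b i ((q.1, j), q.2)) ^ 2
          ≤ ∑ q : (Fin D → ZMod l) × Fin n, (2 * dc.b i ((q.1 + unitv k, j), q.2) ^ 2 +
              2 * dc.b i ((q.1, j), q.2) ^ 2) := by
            refine Finset.sum_le_sum fun q _ => ?_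
            nlinarith [sq_nonneg (dc.b i ((q.1 + unitv k, j), q.2) + dc.b i ((q.1, j), q.2))]
        _ = 4 * ∑ q : (Fin D → ZMod l) × Fin n, dc.b i ((q.1, j), q.2) ^ 2 := by
            rw [Finset.sum_add_distrib, ← Finset.mul_sum, ← Finset.mul_sum, e2]
            ring
    rw [hom]
    calc ∑ j : Fin D, ∑ k : Fin D, ∑ q : (Fin D → ZMod l) × Fin n,
          (dc.b i ((q.1 + unitv k, j), q.2) - dc.b i ((q.1, j), q.2)) ^ 2
        ≤ ∑ j : Fin D, ∑ _k : Fin D,
          4 * ∑ q : (Fin D → ZMod l) × Fin n, dc.b i ((q.1, j), q.2) ^ 2 :=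
          Finset.sum_le_sum fun j _ => Finset.sum_le_sum fun k _ => e1 j k
      _ = 4 * D * ∑ j : Fin D, ∑ q : (Fin D → ZMod l) × Fin n, dc.b i ((q.1, j), q.2) ^ 2 := by
          rw [Finset.mul_sum]
          refine Finset.sum_congr rfl fun j _ => ?_
          rw [Finset.sum_const, Finset.card_univ, Fintype.card_fin, nsmul_eq_mul]
          ring
      _ = 4 * D := by rw [hunit, mul_one]
  have hK : 1 ≤ (C + 4 * D) * (l : ℝ) ^ p := by nlinarith
  have hKC : C * (l : ℝ) ^ p ≤ (C + 4 * D) * (l : ℝ) ^ p := by gcongr; linarith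
  have hKD : 4 * D ≤ (C + 4 * D) * (l : ℝ) ^ p := by nlinarith
  constructor
  · rw [inv_le_iff_one_le_mul₀ (by linarith)]
    rcases le_or_gt 1 (dc.om i) with h | h
    · nlinarith
    · have h3 : dc.om i ^ 2 ≤ dc.om i := by nlinarith
      have h4 : C * (l : ℝ) ^ p * dc.om i ^ 2 ≤ (C + 4 * D) * (l : ℝ) ^ p * dc.om i :=
        mul_le_mul hKC h3 (by positivity) (by linarith)
      linarith
  · rcases le_or_gt 1 (dc.om i) with h | h
    · nlinarith
    · linarith

end Pool.Agent.Q111.LU
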