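import Pool.Agent.Q149.LU.TAY0
import Pool.Agent.Q77.LU.StmU

/-! # The magnetic energy on the constants, uniform version (TAY0U), after helper149 -/

set_option autoImplicit false

namespace Pool.Agent.Q111.LU

open Pool.Agent.Q77.LU
open Pool.Agent.Q149.LU hiding mt_eG mt_inv fro2_nonneg
open Matrix Set Filter Topology
open scoped ContDiff Matrix.Norms.Frobenius

variable {N n D l : ℕ} {G : Subgroup (UU N)}

theorem t_TAY0U (h0 : S_EXPG) (h : S_BCH) : S_TAY0U := by
  intro N n D G hG B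
  obtain ⟨K0, hK0, hK⟩ := h N
  refine ⟨max 1 (4 * K0), le_max_left _ _, ?_⟩
  intro l _ dc C hC'
  have hC : n2 C ≤ 1 := by
    refine hC'.trans ?_
    have h1 : (max 1 (4 * K0))⁻¹ ≤ 1 := inv_le_one_of_one_le₀ (le_max_left _ _)
    have h2 : 0 ≤ (max 1 (4 * K0))⁻¹ := inv_nonneg.2 (le_trans zero_le_one (le_max_left _ _))
    nlinarith
  have hfin : 4 * K0 ≤ max 1 (4 * K0) := le_max_right _ _
  set s : ℝ := (Real.sqrt ((l : ℝ) ^ D))⁻¹ with hs
  have hl : 1 ≤ (l : ℝ) := by exact_mod_cast Nat.one_le_iff_ne_zero.2 (NeZero.ne l)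
  have hlD : 1 ≤ (l : ℝ) ^ D := one_le_pow₀ hl
  have hsq : 1 ≤ Real.sqrt ((l : ℝ) ^ D) := by
    rw [show (1 : ℝ) = Real.sqrt 1 by simp]
    exact Real.sqrt_le_sqrt hlD
  have hs0 : 0 ≤ s := by rw [hs]; positivity
  have hs1 : s ≤ 1 := inv_le_one_of_one_le₀ hsq
  have hs2 : s ^ 2 = ((l : ℝ) ^ D)⁻¹ := by
    rw [hs, inv_pow, Real.sq_sqrt (by positivity)]
  -- the links
  set L : Fin D → Mt N := fun i => lin B (fun a => C (i, a)) with hL
  have hch : ∀ e : Link D l, mt (dc.ch (C, 0) e) = NormedSpace.exp (s • L e.2) := by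
    intro e
    show mt (eG B fun a => dc.xi (C, 0) (e, a)) = _
    rw [mt_eG h0 hG, hL, ← Pool.Agent.Q149.LU.lin_smul]
    congr 2
    funext a
    simp [Dec.xi, cons, hs]
  have hLs : ∀ i, (L i)ᴴ = -L i := fun i => skewLin B _
  have hpl : ∀ (x : Fin D → ZMod l) (i j : Fin D), mt (plaq (dc.ch (C, 0)) x i j) =
      NormedSpace.exp (s • L i) * NormedSpace.exp (s • L j) * NormedSpace.exp (-(s • L i)) *
        NormedSpace.exp (-(s • L j)) := by
    intro x i j
    unfold plaq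
    rw [mt_mul', mt_mul', mt_mul', mt_inv, mt_inv, hch, hch, hch, hch,
      exp_conjT (skew_smul (hLs i) s), exp_conjT (skew_smul (hLs j) s)]
  -- norms
  have hnC : nr C ≤ 1 := by
    unfold nr
    rw [show (1 : ℝ) = Real.sqrt 1 by simp]
    exact Real.sqrt_le_sqrt (by simpa using hC)
  have hn : ∀ i, ‖s • L i‖ ≤ nr C := by
    intro i
    rw [norm_smul, Real.norm_eq_abs, abs_of_nonneg hs0, hL, norm_lin]
    have h1 := nr_comp_le C i
    have h2 : 0 ≤ nr (fun a => C (i, a)) := Real.sqrt_nonneg _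
    nlinarith
  set c : Fin D → Fin D → ℝ := fun i j => fro2 (L i * L j - L j * L i) with hc
  have hcn : ∀ i j, 0 ≤ c i j := fun i j => fro2_nonneg _
  have hcs : ∀ i j, fro2 (s • L i * s • L j - s • L j * s • L i) = s ^ 4 * c i j := by
    intro i j
    have : s • L i * s • L j - s • L j * s • L i = (s ^ 2) • (L i * L j - L j * L i) := by
      simp only [Matrix.smul_mul, Matrix.mul_smul, smul_smul, smul_sub]
      ring_nf
    rw [this, fro2_smul]
    ring
  have hmain : ∀ i j, |(trace (1 - NormedSpace.exp (s • L i) * NormedSpace.exp (s • L j) *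
      NormedSpace.exp (-(s • L i)) * NormedSpace.exp (-(s • L j)))).re -
      1 / 2 * (s ^ 4 * c i j)| ≤ 2 * K0 * nr C * (s ^ 4 * c i j) := by
    intro i j
    have h1 := hK (s • L i) (s • L j) (skew_smul (hLs i) s) (skew_smul (hLs j) s)
      ((hn i).trans hnC) ((hn j).trans hnC)
    rw [hcs] at h1
    refine h1.trans ?_
    have h2 := hn i
    have h3 := hn j
    have h4 : 0 ≤ s ^ 4 * c i j := mul_nonneg (by positivity) (hcn i j)
    refine mul_le_mul_of_nonneg_right ?_ h4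
    nlinarith
  -- the sum
  have hcard : (Fintype.card (Fin D → ZMod l) : ℝ) = (l : ℝ) ^ D := by
    rw [Fintype.card_fun, ZMod.card, Fintype.card_fin]
    push_cast
    rfl
  set T : Fin D → Fin D → ℝ := fun i j => (trace (1 - NormedSpace.exp (s • L i) *
    NormedSpace.exp (s • L j) * NormedSpace.exp (-(s • L i)) *
    NormedSpace.exp (-(s • L j)))).re with hT
  have hmag : magnetic (dc.ch (C, 0)) = (l : ℝ) ^ D * ∑ i, ∑ j, if i < j then T i j else 0 := by
    unfold magnetic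
    simp only [hpl]
    rw [Finset.sum_const, Finset.card_univ, nsmul_eq_mul, hcard]
  have hvr : vred B D C = 1 / 2 * ∑ i, ∑ j, if i < j then c i j else 0 := rfl
  have hl4 : (l : ℝ) ^ D * s ^ 4 = ((l : ℝ) ^ D)⁻¹ := by
    have : s ^ 4 = (s ^ 2) ^ 2 := by ring
    rw [this, hs2]
    field_simp
  set S : ℝ := ∑ i, ∑ j, if i < j then c i j else 0 with hS
  have hS0 : 0 ≤ S := Finset.sum_nonneg fun i _ => Finset.sum_nonneg fun j _ => by
    split_ifs
    · exact hcn i j
    · exact le_rfl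
  have hdiff : |(∑ i, ∑ j, if i < j then T i j else 0) - 1 / 2 * s ^ 4 * S| ≤
      2 * K0 * nr C * s ^ 4 * S := by
    have e1 : (∑ i, ∑ j, if i < j then T i j else 0) - 1 / 2 * s ^ 4 * S =
        ∑ i, ∑ j, if i < j then (T i j - 1 / 2 * (s ^ 4 * c i j)) else 0 := by
      rw [hS, Finset.mul_sum, ← Finset.sum_sub_distrib]
      refine Finset.sum_congr rfl fun i _ => ?_
      rw [Finset.mul_sum, ← Finset.sum_sub_distrib]
      refine Finset.sum_congr rfl fun j _ => ?_
      split_ifs <;> ring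
    have e2 : 2 * K0 * nr C * s ^ 4 * S =
        ∑ i, ∑ j, if i < j then 2 * K0 * nr C * (s ^ 4 * c i j) else 0 := by
      rw [hS, Finset.mul_sum]
      refine Finset.sum_congr rfl fun i _ => ?_
      rw [Finset.mul_sum]
      refine Finset.sum_congr rfl fun j _ => ?_
      split_ifs <;> ring
    rw [e1, e2]
    refine (Finset.abs_sum_le_sum_abs _ _).trans (Finset.sum_le_sum fun i _ => ?_)
    refine (Finset.abs_sum_le_sum_abs _ _).trans (Finset.sum_le_sum fun j _ => ?_)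
    split_ifs
    · exact hmain i j
    · simp
  rw [hmag, hvr]
  have e3 : (l : ℝ) ^ D * (∑ i, ∑ j, if i < j then T i j else 0) -
      ((l : ℝ) ^ D)⁻¹ * (1 / 2 * S) =
      (l : ℝ) ^ D * ((∑ i, ∑ j, if i < j then T i j else 0) - 1 / 2 * s ^ 4 * S) := by
    rw [mul_sub, ← hl4]
    ring
  rw [e3, abs_mul, abs_of_nonneg (by positivity : (0 : ℝ) ≤ (l : ℝ) ^ D)]
  have hnr : 0 ≤ nr C := Real.sqrt_nonneg _
  calc (l : ℝ) ^ D * |(∑ i, ∑ j, if i < j then T i j else 0) - 1 / 2 * s ^ 4 * S|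
      ≤ (l : ℝ) ^ D * (2 * K0 * nr C * s ^ 4 * S) := by gcongr
    _ = ((l : ℝ) ^ D * s ^ 4) * (2 * K0 * nr C * S) := by ring
    _ = ((l : ℝ) ^ D)⁻¹ * (2 * K0 * nr C * S) := by rw [hl4]
    _ ≤ 1 * (2 * K0 * nr C * S) := by
        refine mul_le_mul_of_nonneg_right (inv_le_one_of_one_le₀ hlD) ?_
        positivity
    _ = 4 * K0 * (nr C * (1 / 2 * S)) := by ring
    _ ≤ max 1 (4 * K0) * (nr C * (1 / 2 * S)) :=
        mul_le_mul_of_nonneg_right hfin (by positivity)
    _ = max 1 (4 * K0) * nr C * (1 / 2 * S) := by ring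

end Pool.Agent.Q111.LU
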