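import Pool.Agent.Q149.LU.TA

/-!
# Taylor expansions with explicit constants (after helper149)
-/

set_option autoImplicit false
set_option linter.unusedSectionVars false

namespace Pool.Agent.Q111.LU

open Set Filter Topology
open scoped ContDiff
open Pool.Agent.Q149.LU

section general

variable {E F V : Type*} [NormedAddCommGroup E] [NormedSpace ℝ E]
  [NormedAddCommGroup F] [NormedSpace ℝ F] [NormedAddCommGroup V] [NormedSpace ℝ V]

variable [FiniteDimensional ℝ E] [FiniteDimensional ℝ F]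

/-- mean value inequality on a ball -/
theorem lip_ball {f : E → V} (hf : ContDiff ℝ ∞ f) (R K : ℝ)
    (hb' : ∀ x, ‖x‖ ≤ R → ‖iteratedFDeriv ℝ 1 f x‖ ≤ K) (x y : E) (hx : ‖x‖ ≤ R) (hy : ‖y‖ ≤ R) :
    ‖f y - f x‖ ≤ K * ‖y - x‖ := by
  have hb : ∀ x, ‖x‖ ≤ R → ‖fderiv ℝ f x‖ ≤ K := by
    intro x hx
    rw [← norm_iteratedFDeriv_one]
    exact hb' x hx
  have hd : ∀ x, HasFDerivAt f (fderiv ℝ f x) x := fun x =>
    (hf.differentiable (by simp) x).hasFDerivAt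
  exact (convex_closedBall (0 : E) R).norm_image_sub_le_of_norm_hasFDerivWithin_le
    (f := f) (f' := fun x => fderiv ℝ f x) (C := K) (x := x) (y := y)
    (fun x _ => (hd x).hasFDerivWithinAt)
    (fun x hx => hb x (by rwa [mem_closedBall_zero_iff] at hx))
    (by rwa [mem_closedBall_zero_iff]) (by rwa [mem_closedBall_zero_iff])

variable {w : E × F → ℝ}

/-- third order Taylor formula with explicit constant -/
theorem taylor3_q (hw : ContDiff ℝ ∞ w) (h1 : ∀ C, W1 w (C, 0) = 0) (R K : ℝ) (hK0 : 0 ≤ K)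
    (hb : ∀ x : E × F, ‖x‖ ≤ R → ‖iteratedFDeriv ℝ 1 (W2 w) x‖ ≤ K) (C : E) (a : F)
    (hC : ‖C‖ ≤ R)
    (ha : ‖a‖ ≤ R) :
    |w (C, a) - w (C, 0) - 1 / 2 * W2 w (C, 0) a a| ≤ K * ‖a‖ ^ 3 := by
  have hK : ∀ c : F, ‖c‖ ≤ R → ‖W2 w (C, c) - W2 w (C, 0)‖ ≤ K * ‖c‖ := by
    intro c hc
    have h := lip_ball (W2_smooth hw) R K hb (C, 0) (C, c)
      (by
        rw [Prod.norm_def]
        exact max_le hC (by simpa using (norm_nonneg c).trans hc))
      (by
        rw [Prod.norm_def]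
        exact max_le hC hc)
    simpa using h
  have e1 : ∀ b : F, ‖b‖ ≤ R → ‖W1 w (C, b) - W2 w (C, 0) b‖ ≤ K * ‖b‖ ^ 2 := by
    intro b hb
    refine bound_step (f := fun b => W1 w (C, b) - W2 w (C, 0) b)
      (f' := fun b => W2 w (C, b) - W2 w (C, 0)) (m := 1) (R := R) hK0 ?_ ?_ ?_ b hb
    · intro b
      exact (hasFDerivAt_W1 hw C b).sub (W2 w (C, 0)).hasFDerivAt
    · simp [h1 C]
    · intro c hc
      rw [pow_one]
      exact hK c hc
  have e2 := bound_step (f := fun b => w (C, b) - w (C, 0) - 1 / 2 * W2 w (C, 0) b b)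
    (f' := fun b => W1 w (C, b) - W2 w (C, 0) b) (m := 2) (R := R) hK0 ?_ ?_ e1 a ha
  · exact e2
  · intro b
    have h3 : HasFDerivAt (fun b : F => W2 w (C, 0) b b)
        ((W2 w (C, 0) b) + (W2 w (C, 0)).flip b) b := by
      have := (W2 w (C, 0)).hasFDerivAt (x := b)
      have h4 := this.clm_apply (hasFDerivAt_id (𝕜 := ℝ) b)
      refine h4.congr_fderiv ?_
      ext v
      simp
    have h5 := ((hasFDerivAt_w hw C b).sub_const (w (C, 0))).sub (h3.const_mul (1 / 2))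
    refine h5.congr_fderiv ?_
    ext v
    simp only [FunLike.coe_sub, Pi.sub_apply, FunLike.coe_smul,
      Pi.smul_apply, add_apply, ContinuousLinearMap.flip_apply, smul_eq_mul]
    rw [W2_symm hw C 0 v b]
    ring
  · simp

/-- second order Taylor formula with explicit constant -/
theorem taylor2_q {f : E → V} (hf : ContDiff ℝ ∞ f) (R K : ℝ) (hK0 : 0 ≤ K)
    (hb' : ∀ x : E, ‖x‖ ≤ R → ‖iteratedFDeriv ℝ 2 f x‖ ≤ K) (C : E) (hC : ‖C‖ ≤ R) :
    ‖f C - f 0 - fderiv ℝ f 0 C‖ ≤ K * ‖C‖ ^ 2 := by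
  have hb : ∀ x : E, ‖x‖ ≤ R → ‖iteratedFDeriv ℝ 1 (fderiv ℝ f) x‖ ≤ K := by
    intro x hx
    rw [norm_iteratedFDeriv_fderiv]
    exact hb' x hx
  have hR : 0 ≤ R := (norm_nonneg C).trans hC
  refine bound_step (f := fun C => f C - f 0 - fderiv ℝ f 0 C)
    (f' := fun C => fderiv ℝ f C - fderiv ℝ f 0) (m := 1) (R := R) hK0 ?_ ?_ ?_ C hC
  · intro C
    exact (((hf.differentiable (by simp) C).hasFDerivAt).sub_const _).sub
      (fderiv ℝ f 0).hasFDerivAt
  · simp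
  · intro c hc
    rw [pow_one]
    have h := lip_ball (hf.fderiv_right (m := ∞) (by simp)) R K hb 0 c (by simpa using hR) hc
    simpa using h

theorem norm_inr_le : ‖ContinuousLinearMap.inr ℝ E F‖ ≤ 1 := by
  apply ContinuousLinearMap.opNorm_le_bound _ zero_le_one
  intro x
  rw [ContinuousLinearMap.inr_apply, Prod.norm_def]
  simp

theorem norm_inl_le : ‖ContinuousLinearMap.inl ℝ E F‖ ≤ 1 := by
  apply ContinuousLinearMap.opNorm_le_bound _ zero_le_one
  intro x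
  rw [ContinuousLinearMap.inl_apply, Prod.norm_def]
  simp

/-- the restriction of a functional to the second factor -/
noncomputable def rs (E F V : Type*) [NormedAddCommGroup E] [NormedSpace ℝ E]
    [NormedAddCommGroup F] [NormedSpace ℝ F] [NormedAddCommGroup V] [NormedSpace ℝ V] :
    (E × F →L[ℝ] V) →L[ℝ] (F →L[ℝ] V) :=
  (ContinuousLinearMap.compL ℝ F (E × F) V).flip (ContinuousLinearMap.inr ℝ E F)

theorem rs_apply (T : E × F →L[ℝ] V) : rs E F V T = T.comp (ContinuousLinearMap.inr ℝ E F) := rfl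

theorem norm_rs_le : ‖rs E F V‖ ≤ 1 := by
  apply ContinuousLinearMap.opNorm_le_bound _ zero_le_one
  intro T
  rw [rs_apply, one_mul]
  refine (ContinuousLinearMap.opNorm_comp_le _ _).trans ?_
  exact mul_le_of_le_one_right (norm_nonneg _) norm_inr_le

theorem it_rs {f : E × F → V} (hf : ContDiff ℝ ∞ f) (i : ℕ) (x : E × F) :
    ‖iteratedFDeriv ℝ i (fun x => (fderiv ℝ f x).comp (ContinuousLinearMap.inr ℝ E F)) x‖ ≤
      ‖iteratedFDeriv ℝ (i + 1) f x‖ := by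
  have h1 : ContDiff ℝ ∞ (fderiv ℝ f) := hf.fderiv_right (m := ∞) (by simp)
  have h2 := ContinuousLinearMap.norm_iteratedFDeriv_comp_left (rs E F V)
    (h1.contDiffAt (x := x)) (show ((i : ℕ) : WithTop ℕ∞) ≤ ∞ by exact_mod_cast le_top)
  have e : (rs E F V) ∘ (fderiv ℝ f) =
      fun x => (fderiv ℝ f x).comp (ContinuousLinearMap.inr ℝ E F) := rfl
  rw [e, norm_iteratedFDeriv_fderiv] at h2
  exact h2.trans (mul_le_of_le_one_left (norm_nonneg _) norm_rs_le)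

theorem it_W1 (hw : ContDiff ℝ ∞ w) (i : ℕ) (x : E × F) :
    ‖iteratedFDeriv ℝ i (W1 w) x‖ ≤ ‖iteratedFDeriv ℝ (i + 1) w x‖ := it_rs hw i x

theorem it_W2 (hw : ContDiff ℝ ∞ w) (i : ℕ) (x : E × F) :
    ‖iteratedFDeriv ℝ i (W2 w) x‖ ≤ ‖iteratedFDeriv ℝ (i + 2) w x‖ :=
  (it_rs (W1_smooth hw) i x).trans (it_W1 hw (i + 1) x)

theorem it_comp {f : F → V} (hf : ContDiff ℝ ∞ f) (g : E →L[ℝ] F) (i : ℕ) (x : E) :
    ‖iteratedFDeriv ℝ i (fun x => f (g x)) x‖ ≤ ‖iteratedFDeriv ℝ i f (g x)‖ * ‖g‖ ^ i := by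
  have h1 := g.iteratedFDeriv_comp_right (f := f) hf x (i := i) (by exact_mod_cast le_top)
  have e : (f ∘ g) = fun x => f (g x) := rfl
  rw [e] at h1
  rw [h1]
  refine (ContinuousMultilinearMap.norm_compContinuousLinearMap_le _ _).trans ?_
  rw [Finset.prod_const, Finset.card_univ, Fintype.card_fin]

/-- the second derivative on the first factor -/
theorem H_bounds (hw : ContDiff ℝ ∞ w) (C : E) :
    ‖iteratedFDeriv ℝ 1 (fun C => W2 w (C, (0 : F))) C‖ ≤ ‖iteratedFDeriv ℝ 3 w (C, 0)‖ ∧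
    ‖iteratedFDeriv ℝ 2 (fun C => W2 w (C, (0 : F))) C‖ ≤ ‖iteratedFDeriv ℝ 4 w (C, 0)‖ := by
  have h1 := it_comp (W2_smooth hw) (ContinuousLinearMap.inl ℝ E F) 1 C
  have h2 := it_comp (W2_smooth hw) (ContinuousLinearMap.inl ℝ E F) 2 C
  have h3 := it_W2 hw 1 (C, (0 : F))
  have h4 := it_W2 hw 2 (C, (0 : F))
  have h5 : ‖ContinuousLinearMap.inl ℝ E F‖ ≤ 1 := norm_inl_le
  simp only [ContinuousLinearMap.inl_apply] at h1 h2
  constructor
  · refine h1.trans (le_trans (mul_le_of_le_one_right (norm_nonneg _) ?_) h3)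
    exact pow_le_one₀ (norm_nonneg _) h5
  · refine h2.trans (le_trans (mul_le_of_le_one_right (norm_nonneg _) ?_) h4)
    exact pow_le_one₀ (norm_nonneg _) h5

theorem fderiv_apply_le {f : E → V} (x v : E) :
    ‖fderiv ℝ f x v‖ ≤ ‖iteratedFDeriv ℝ 1 f x‖ * ‖v‖ := by
  rw [norm_iteratedFDeriv_one]
  exact ContinuousLinearMap.le_opNorm _ _

end general

theorem bil_single {F : Type*} [Fintype F] [DecidableEq F] (T : (F → ℝ) →L[ℝ] (F → ℝ) →L[ℝ] ℝ)
    (i j : F) : |T (Pi.single i 1) (Pi.single j 1)| ≤ ‖T‖ := by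
  have b2 : ∀ i : F, ‖(Pi.single i 1 : F → ℝ)‖ ≤ 1 := by
    intro i
    rw [Pi.norm_single]
    simp
  rw [← Real.norm_eq_abs]
  refine (ContinuousLinearMap.le_opNorm₂ _ _ _).trans ?_
  calc ‖T‖ * ‖(Pi.single i 1 : F → ℝ)‖ * ‖(Pi.single j 1 : F → ℝ)‖ ≤ ‖T‖ * 1 * 1 := by
        gcongr
        · exact b2 i
        · exact b2 j
    _ = ‖T‖ := by ring

end Pool.Agent.Q111.LU
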