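import Pool.Agent.Q149.LU.TAYL
import Pool.Agent.Q77.LU.StmU
import Pool.Agent.Q111.LU.TQ

/-!
# Taylor expansion of the magnetic energy in the chart, uniform version (after helper149)
-/

set_option autoImplicit false
set_option linter.unusedSectionVars false

namespace Pool.Agent.Q111.LU

open Pool.Agent.Q77.LU
open Pool.Agent.Q149.LU (W1 W2 W1_smooth W2_smooth W2_symm)
open Pool.Agent.Q149.LU.T (Fy xiL xiL_apply wch wch_eq wch_smooth wch_W1 Hc Hc_smooth dH AC AC_quad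
  AC_symm AC_trace Hc_zero contDiff_Fy norm_le_nr nr_sq)
open Matrix Set Filter Topology
open scoped ContDiff Matrix.Norms.Frobenius

variable {N n D l : ℕ} [NeZero l] {G : Subgroup (UU N)} {B : LieBasis G n}

theorem abs_b_le (dc : Dec B D l) (i : Fin dc.M) (p : Link D l × Fin n) : |dc.b i p| ≤ 1 := by
  have h1 := dc.orth i i
  rw [if_pos rfl] at h1
  have h2 : dc.b i p * dc.b i p ≤ 1 := by
    rw [← h1]
    exact Finset.single_le_sum (f := fun p => dc.b i p * dc.b i p)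
      (fun q _ => mul_self_nonneg _) (Finset.mem_univ p)
  rw [abs_le]
  constructor <;> nlinarith

theorem xi_le (dc : Dec B D l) (x : (Fin D × Fin n → ℝ) × (Fin dc.M → ℝ)) :
    ‖xiL dc x‖ ≤ (1 + (dc.M : ℝ)) * ‖x‖ := by
  have hl : (1 : ℝ) ≤ (l : ℝ) := by exact_mod_cast Nat.one_le_iff_ne_zero.2 (NeZero.ne l)
  refine (pi_norm_le_iff_of_nonneg (by positivity)).2 fun p => ?_
  have h1 : ‖x.1‖ ≤ ‖x‖ := norm_fst_le x
  have h2 : ‖x.2‖ ≤ ‖x‖ := norm_snd_le x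
  have h3 : |cons D l x.1 p| ≤ ‖x.1‖ := by
    unfold cons
    rw [abs_mul]
    have h4 : |(Real.sqrt ((l : ℝ) ^ D))⁻¹| ≤ 1 := by
      rw [abs_of_nonneg (by positivity)]
      apply inv_le_one_of_one_le₀
      rw [Real.one_le_sqrt]
      exact one_le_pow₀ hl
    have h5 : |x.1 (p.1.2, p.2)| ≤ ‖x.1‖ := norm_le_pi_norm x.1 _
    calc |(Real.sqrt ((l : ℝ) ^ D))⁻¹| * |x.1 (p.1.2, p.2)| ≤ 1 * ‖x.1‖ :=
          mul_le_mul h4 h5 (abs_nonneg _) zero_le_one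
      _ = ‖x.1‖ := one_mul _
  have h6 : |∑ i, x.2 i * dc.b i p| ≤ dc.M * ‖x.2‖ := by
    refine (Finset.abs_sum_le_sum_abs _ _).trans ?_
    calc ∑ i, |x.2 i * dc.b i p| ≤ ∑ _i : Fin dc.M, ‖x.2‖ := by
          apply Finset.sum_le_sum
          intro i _
          rw [abs_mul]
          have h7 : |x.2 i| ≤ ‖x.2‖ := norm_le_pi_norm x.2 i
          calc |x.2 i| * |dc.b i p| ≤ ‖x.2‖ * 1 :=
                mul_le_mul h7 (abs_b_le dc i p) (abs_nonneg _) (norm_nonneg _)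
            _ = ‖x.2‖ := mul_one _
      _ = dc.M * ‖x.2‖ := by rw [Finset.sum_const, Finset.card_univ, Fintype.card_fin,
          nsmul_eq_mul]
  rw [xiL_apply, Real.norm_eq_abs]
  unfold Dec.xi
  refine (abs_add_le _ _).trans ?_
  have h8 : (dc.M : ℝ) * ‖x.2‖ ≤ dc.M * ‖x‖ := mul_le_mul_of_nonneg_left h2 (Nat.cast_nonneg _)
  linarith

theorem M_le (dc : Dec B D l) : (1 + (dc.M : ℝ)) ≤ (1 + D * n + n) * (l : ℝ) ^ D := by
  have hl : (1 : ℝ) ≤ (l : ℝ) ^ D :=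
    one_le_pow₀ (by exact_mod_cast Nat.one_le_iff_ne_zero.2 (NeZero.ne l))
  have h1 : (dc.M : ℝ) + D * n + l ^ D * n = D * l ^ D * n + n := by exact_mod_cast dc.card
  have h2 : (0 : ℝ) ≤ D * n := by positivity
  have h3 : (0 : ℝ) ≤ (n : ℝ) := Nat.cast_nonneg _
  nlinarith [mul_nonneg h3 (sub_nonneg.2 hl)]

theorem norm_xiL_le (dc : Dec B D l) : ‖xiL dc‖ ≤ (1 + D * n + n) * (l : ℝ) ^ D := by
  refine (ContinuousLinearMap.opNorm_le_bound _ (by positivity) (xi_le dc)).trans (M_le dc)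

theorem t_TAYLU (h0 : S_EXPG) (h2 : S_DMAG) (h3 : S_TAY0U) (h4 : S_SYMM) : S_TAYLU := by
  intro N n D G hG B hB
  obtain ⟨p2, C2, hC2, hD⟩ := h2 N n D G hG B
  obtain ⟨C0, hC0, hT0⟩ := h3 N n D G hG B
  obtain ⟨C1, hC1⟩ : ∃ C1 : ℝ, C1 = 1 + D * n + n := ⟨_, rfl⟩
  have hC11 : 1 ≤ C1 := by
    rw [hC1]
    have : (0 : ℝ) ≤ D * n := by positivity
    have : (0 : ℝ) ≤ (n : ℝ) := Nat.cast_nonneg _
    linarith
  have hC14 : 0 ≤ C2 * C1 ^ 4 := by positivity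
  refine ⟨4 * D + p2, C0 + C1 + 2 * (C2 * C1 ^ 4), by linarith, ?_⟩
  intro l _ dc M hM
  have hl : (1 : ℝ) ≤ (l : ℝ) := by exact_mod_cast Nat.one_le_iff_ne_zero.2 (NeZero.ne l)
  have hlD : (1 : ℝ) ≤ (l : ℝ) ^ D := one_le_pow₀ hl
  have hlp : (1 : ℝ) ≤ (l : ℝ) ^ (4 * D + p2) := one_le_pow₀ hl
  obtain ⟨X, hX⟩ : ∃ X : ℝ, X = C1 * (l : ℝ) ^ D := ⟨_, rfl⟩
  obtain ⟨Q, hQ⟩ : ∃ Q : ℝ, Q = C2 * (l : ℝ) ^ p2 * X ^ 4 := ⟨_, rfl⟩
  have hX1 : 1 ≤ X := by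
    rw [hX]
    nlinarith
  have hQe : Q = C2 * C1 ^ 4 * (l : ℝ) ^ (4 * D + p2) := by
    rw [hQ, hX, mul_pow, ← pow_mul, pow_add, mul_comm D 4]
    ring
  have hQ0 : 0 ≤ Q := by
    rw [hQe]
    positivity
  have hXM : X ≤ C1 * (l : ℝ) ^ (4 * D + p2) := by
    rw [hX]
    exact mul_le_mul_of_nonneg_left (pow_le_pow_right₀ hl (by omega)) (by linarith)
  have hC0M : C0 ≤ C0 * (l : ℝ) ^ (4 * D + p2) := le_mul_of_one_le_right (by linarith) hlp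
  have hMe : M = C0 * (l : ℝ) ^ (4 * D + p2) + C1 * (l : ℝ) ^ (4 * D + p2) + 2 * Q := by
    rw [hM, hQe]
    ring
  have hMX : X ≤ M := by
    rw [hMe]
    linarith
  have hMQ : C0 + Q + Q ≤ M := by
    rw [hMe]
    linarith
  have hMC : C0 ≤ M := by linarith
  have hM1 : 1 ≤ M := hX1.trans hMX
  have hMi : M⁻¹ ≤ X⁻¹ := inv_anti₀ (by linarith) hMX
  have hXi : X⁻¹ ≤ 1 := inv_le_one_of_one_le₀ hX1
  have hXi0 : 0 ≤ X⁻¹ := by positivity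
  have hMi0 : 0 ≤ M⁻¹ := by positivity
  have hxi : ‖xiL dc‖ ≤ X := by
    rw [hX, hC1]
    exact norm_xiL_le dc
  have hDk : ∀ k ≤ 4, ∀ x, ‖x‖ ≤ X⁻¹ → ‖iteratedFDeriv ℝ k (wch dc) x‖ ≤ Q := by
    intro k hk x hx
    have a1 := it_comp (contDiff_Fy h0 hG B) (xiL dc) k x
    have a2 : ‖xiL dc x‖ ≤ 1 := by
      refine ((xiL dc).le_opNorm x).trans ?_
      calc ‖xiL dc‖ * ‖x‖ ≤ X * X⁻¹ := mul_le_mul hxi hx (norm_nonneg _) (by linarith)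
        _ = 1 := mul_inv_cancel₀ (by linarith)
    have a3 := (hD l).2 k (xiL dc x) hk (fun q => by
      rw [← Real.norm_eq_abs]
      exact (norm_le_pi_norm (xiL dc x) q).trans a2)
    refine a1.trans ?_
    rw [hQ]
    refine mul_le_mul a3 ?_ (by positivity) (by positivity)
    calc ‖xiL dc‖ ^ k ≤ X ^ k := pow_le_pow_left₀ (norm_nonneg _) hxi k
      _ ≤ X ^ 4 := pow_le_pow_right₀ hX1 hk
  have hpair : ∀ C : Fin D × Fin n → ℝ, ‖C‖ ≤ X⁻¹ → ‖(C, (0 : Fin dc.M → ℝ))‖ ≤ X⁻¹ := by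
    intro C hC
    rw [Prod.norm_def]
    exact max_le hC (by simpa using hXi0)
  have hT3 := taylor3_q (wch_smooth h0 hG dc) (wch_W1 h0 hG dc) X⁻¹ Q hQ0 (fun x hx =>
    (it_W2 (wch_smooth h0 hG dc) 1 x).trans (hDk 3 (by norm_num) x hx))
  have hT2 := taylor2_q (Hc_smooth h0 hG dc) X⁻¹ Q hQ0 (fun x hx =>
    ((H_bounds (wch_smooth h0 hG dc) x).2).trans (hDk 4 le_rfl _ (hpair x hx)))
  have hA : ∀ C, ‖dH dc C‖ ≤ Q * ‖C‖ := by
    intro C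
    refine (fderiv_apply_le (f := Hc dc) 0 C).trans (mul_le_mul_of_nonneg_right ?_ (norm_nonneg _))
    exact ((H_bounds (wch_smooth h0 hG dc) 0).1).trans
      (hDk 3 (by norm_num) _ (hpair 0 (by simpa using hXi0)))
  refine ⟨AC dc, AC_symm h0 hG dc, AC_trace h0 h4 hG hB dc, ?_, ?_⟩
  · intro C i j
    have b1 : |AC dc C i j| ≤ ‖dH dc C‖ := bil_single (dH dc C) i j
    have b4 : Q * ‖C‖ ≤ M * nr C := by
      have := norm_le_nr C
      refine mul_le_mul (by linarith) this (norm_nonneg _) (by linarith)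
    have := hA C
    linarith
  rintro ⟨C, a⟩ hx
  have hnx : n2 C + n2 a ≤ M⁻¹ ^ 2 := hx
  have hC0' := Pool.Agent.Q149.LU.T.n2_nonneg' C
  have ha0 := Pool.Agent.Q149.LU.T.n2_nonneg' a
  have hnrC : nr C ≤ M⁻¹ := by
    unfold nr
    rw [← Real.sqrt_sq hMi0]
    apply Real.sqrt_le_sqrt
    linarith
  have hnra : nr a ≤ M⁻¹ := by
    unfold nr
    rw [← Real.sqrt_sq hMi0]
    apply Real.sqrt_le_sqrt
    linarith
  have hCn : ‖C‖ ≤ X⁻¹ := (norm_le_nr C).trans (hnrC.trans hMi)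
  have han : ‖a‖ ≤ X⁻¹ := (norm_le_nr a).trans (hnra.trans hMi)
  have hCr : n2 C ≤ C0⁻¹ ^ 2 := by
    have : M⁻¹ ^ 2 ≤ C0⁻¹ ^ 2 := pow_le_pow_left₀ hMi0 (inv_anti₀ (by linarith) hMC) 2
    linarith
  have b1 := hT3 C a hCn han
  have b2 := hT0 l dc C hCr
  have b3 := hT2 C hCn
  have b4 : |(Hc dc C - Hc dc 0 - dH dc C) a a| ≤ Q * n2 C * n2 a := by
    have h3 : |(Hc dc C - Hc dc 0 - dH dc C) a a| ≤
        ‖Hc dc C - Hc dc 0 - dH dc C‖ * ‖a‖ * ‖a‖ := by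
      rw [← Real.norm_eq_abs]
      exact ContinuousLinearMap.le_opNorm₂ _ _ _
    refine h3.trans ?_
    have h4 : ‖a‖ * ‖a‖ ≤ n2 a := by
      rw [← nr_sq]
      have := norm_le_nr a
      have := norm_nonneg a
      nlinarith
    have h5 : ‖C‖ ^ 2 ≤ n2 C := by
      rw [← nr_sq]
      have := norm_le_nr C
      have := norm_nonneg C
      gcongr
    calc ‖Hc dc C - Hc dc 0 - dH dc C‖ * ‖a‖ * ‖a‖
        = ‖Hc dc C - Hc dc 0 - dH dc C‖ * (‖a‖ * ‖a‖) := by ring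
      _ ≤ (Q * ‖C‖ ^ 2) * n2 a := by
          refine mul_le_mul b3 h4 (by positivity) (by positivity)
      _ ≤ (Q * n2 C) * n2 a := by gcongr
      _ = Q * n2 C * n2 a := by ring
  have b5 : ‖a‖ ^ 3 ≤ nr a ^ 3 := by
    have := norm_le_nr a
    gcongr
  have e1 : (Hc dc C - Hc dc 0 - dH dc C) a a =
      W2 (wch dc) (C, 0) a a - (∑ i, dc.om i ^ 2 * a i ^ 2) - dH dc C a a := by
    have : (Hc dc C - Hc dc 0 - dH dc C) a a = Hc dc C a a - Hc dc 0 a a - dH dc C a a := rfl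
    rw [this, Hc_zero h0 hG dc a]
    rfl
  have e2 : ∑ i, a i * ((AC dc C).mulVec a) i = dH dc C a a := AC_quad dc C a
  show |magnetic (dc.ch (C, a)) - ((l : ℝ) ^ D)⁻¹ * vred B D C -
    1 / 2 * ∑ i, dc.om i ^ 2 * a i ^ 2 - 1 / 2 * ∑ i, a i * ((AC dc C).mulVec a) i| ≤
      M * (nr C * vred B D C + n2 C * n2 a + nr a ^ 3)
  rw [e2, ← wch_eq]
  rw [← wch_eq] at b2
  set S := ∑ i, dc.om i ^ 2 * a i ^ 2 with hS
  have e3 : wch dc (C, a) - ((l : ℝ) ^ D)⁻¹ * vred B D C - 1 / 2 * S - 1 / 2 * dH dc C a a =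
      (wch dc (C, a) - wch dc (C, 0) - 1 / 2 * W2 (wch dc) (C, 0) a a) +
      (wch dc (C, 0) - ((l : ℝ) ^ D)⁻¹ * vred B D C) +
      1 / 2 * ((Hc dc C - Hc dc 0 - dH dc C) a a) := by
    rw [e1]
    ring
  rw [e3]
  have hv := Pool.Agent.Q149.LU.T.vred_nonneg B D C
  have hnr : 0 ≤ nr C := Real.sqrt_nonneg _
  have hna : 0 ≤ nr a := Real.sqrt_nonneg _
  have t1 := abs_add_le (wch dc (C, a) - wch dc (C, 0) - 1 / 2 * W2 (wch dc) (C, 0) a a)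
    (wch dc (C, 0) - ((l : ℝ) ^ D)⁻¹ * vred B D C)
  have t2 := abs_add_le ((wch dc (C, a) - wch dc (C, 0) - 1 / 2 * W2 (wch dc) (C, 0) a a) +
    (wch dc (C, 0) - ((l : ℝ) ^ D)⁻¹ * vred B D C)) (1 / 2 * ((Hc dc C - Hc dc 0 - dH dc C) a a))
  have t3 : |1 / 2 * ((Hc dc C - Hc dc 0 - dH dc C) a a)| ≤ Q * n2 C * n2 a := by
    rw [abs_mul, abs_of_nonneg (by norm_num : (0 : ℝ) ≤ 1 / 2)]
    have := abs_nonneg ((Hc dc C - Hc dc 0 - dH dc C) a a)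
    linarith
  have t4 : Q * ‖a‖ ^ 3 ≤ Q * nr a ^ 3 := mul_le_mul_of_nonneg_left b5 hQ0
  have p1 : 0 ≤ nr C * vred B D C := mul_nonneg hnr hv
  have p2 : 0 ≤ n2 C * n2 a := mul_nonneg hC0' ha0
  have p3 : 0 ≤ nr a ^ 3 := by positivity
  have hfin : (C0 + Q + Q) * (nr C * vred B D C + n2 C * n2 a + nr a ^ 3) ≤
      M * (nr C * vred B D C + n2 C * n2 a + nr a ^ 3) :=
    mul_le_mul_of_nonneg_right hMQ (by positivity)
  refine le_trans ?_ hfin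
  have hC00 : 0 ≤ C0 := by linarith
  have q2 : 0 ≤ Q * (nr C * vred B D C) := mul_nonneg hQ0 p1
  have q3 : 0 ≤ C0 * (n2 C * n2 a) := mul_nonneg hC00 p2
  have q4 : 0 ≤ Q * (n2 C * n2 a) := mul_nonneg hQ0 p2
  have q5 : 0 ≤ C0 * nr a ^ 3 := mul_nonneg hC00 p3
  have q6 : 0 ≤ Q * nr a ^ 3 := mul_nonneg hQ0 p3
  nlinarith

end Pool.Agent.Q111.LU
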